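import Pool.Agent.Helper80.EC_D.Goals

set_option autoImplicit false

open MeasureTheory Filter Topology Set

namespace Pool.Agent.Helper80.EC_D.LOG3

open EC237.PD

theorem partial_sum (N : ℕ) : ∑ i ∈ Finset.range N, (1 / (3 * (i:ℝ) + 1) + 1 / (3 * (i:ℝ) + 2) -
    2 / (3 * (i:ℝ) + 3)) = (harmonic (3 * N) : ℝ) - (harmonic N : ℝ) := by
  induction N with
  | zero => simp
  | succ n ih =>
    rw [Finset.sum_range_succ, ih]
    have h1 : 3 * (n + 1) = 3 * n + 1 + 1 + 1 := by ring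
    rw [h1, harmonic_succ, harmonic_succ, harmonic_succ, harmonic_succ]
    push_cast
    have e1 : (3 * (n:ℝ) + 1) ≠ 0 := by positivity
    have e2 : (3 * (n:ℝ) + 1 + 1) ≠ 0 := by positivity
    have e3 : (3 * (n:ℝ) + 1 + 1 + 1) ≠ 0 := by positivity
    have e4 : ((n:ℝ) + 1) ≠ 0 := by positivity
    have f2 : (3 * (n:ℝ) + 2) = 3 * (n:ℝ) + 1 + 1 := by ring
    have f3 : (3 * (n:ℝ) + 3) = 3 * (n:ℝ) + 1 + 1 + 1 := by ring
    have f4 : ((n:ℝ) + 1)⁻¹ = 3 / (3 * (n:ℝ) + 1 + 1 + 1) := by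
      field_simp
      ring
    rw [f2, f3, f4]
    ring

theorem log3 : G_LOG3 := by
  unfold G_LOG3
  rw [hasSum_iff_tendsto_nat_of_nonneg]
  · simp_rw [partial_sum]
    have h := Real.tendsto_harmonic_sub_log
    have h3 : Tendsto (fun N : ℕ => 3 * N) atTop atTop :=
      tendsto_id.const_mul_atTop' (by norm_num : 0 < 3)
    have h1 := h.comp h3
    have h2 := (h1.sub h).add_const (Real.log 3)
    rw [sub_self, zero_add] at h2
    refine h2.congr' ?_
    filter_upwards [eventually_gt_atTop 0] with N hN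
    simp only [Function.comp_apply]
    have hN' : (N:ℝ) ≠ 0 := by positivity
    have : Real.log ((3 * N : ℕ) : ℝ) = Real.log 3 + Real.log N := by
      push_cast
      exact Real.log_mul (by norm_num) hN'
    rw [this]
    ring
  · intro i
    have e1 : (0:ℝ) < 3 * (i:ℝ) + 1 := by positivity
    have h1 : 1 / (3 * (i:ℝ) + 3) ≤ 1 / (3 * (i:ℝ) + 1) := by
      apply one_div_le_one_div_of_le e1; linarith
    have h2 : 1 / (3 * (i:ℝ) + 3) ≤ 1 / (3 * (i:ℝ) + 2) := by
      apply one_div_le_one_div_of_le (by positivity); linarith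
    have h3 : 2 / (3 * (i:ℝ) + 3) = 1 / (3 * (i:ℝ) + 3) + 1 / (3 * (i:ℝ) + 3) := by ring
    rw [h3]
    linarith

end Pool.Agent.Helper80.EC_D.LOG3
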