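import Pool.Agent.Helper80.EC_D.D13
import Pool.Agent.Helper6.EC.D_A1
import Pool.Agent.Helper8.EC.D_A3
import Pool.Agent.Helper45.EC.D_B1
import Pool.Agent.Helper39.EC.D_B2
import Pool.Agent.Helper63.EC.D_B4
import Pool.Agent.Helper10.EC.D_B5
import Pool.Agent.Helper25.EC.D_B8
import Pool.Agent.Helper45.EC.D_N1
import Pool.Agent.Helper87.EC.D_N4
import Pool.Agent.Helper40.EC.D_N6
import Pool.Agent.Helper3.EC.D_N7
import Pool.Agent.Helper76.EC.D_N8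
import Pool.Agent.Helper88.EC.D_N12
import Pool.Agent.Helper94.EC_D.DPN
import Pool.Agent.Helper89.EC_D.DFUB
import Pool.Agent.Helper90.EC_D.DSUM
import Pool.Agent.Helper25.EC_D.DTEL
import Pool.Agent.Helper45.EC_D.DW
import Pool.Agent.Helper5.EC_D.DK1
import Pool.Agent.Helper77.EC_D.DK2
import Pool.Agent.Helper58.EC_D.SGI
import Pool.Agent.Helper80.EC_D.LOG3

/-! # MP_ecc237_nt, Part D: (D.13) -/

set_option autoImplicit false

namespace EC237.PD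

theorem a1 : EC237.A1 := Pool.Agent.Helper6.EC.D_A1.thm
theorem n1' : EC237.N1 := Pool.Agent.Helper45.EC.D_N1.thm a1
theorem n4' : EC237.N4 := Pool.Agent.Helper87.EC.D_N4.thm a1 n1'
theorem n6' : EC237.N6 := Pool.Agent.Helper40.EC.D_N6.thm n1' n4'
theorem n7' : EC237.N7 := Pool.Agent.Helper3.EC.D_N7.thm n4' n6'
theorem n8' : EC237.N8 := Pool.Agent.Helper76.EC.D_N8.thm n7'
theorem n12' : EC237.N12 := Pool.Agent.Helper88.EC.D_N12.thm n4' n6' n7'
theorem b1' : EC237.B1 := Pool.Agent.Helper45.EC.D_B1.thm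
theorem b2' : EC237.B2 := Pool.Agent.Helper39.EC.D_B2.thm a1 b1'
theorem b4' : EC237.B4 := Pool.Agent.Helper63.EC.D_B4.thm
theorem b5' : EC237.B5 := Pool.Agent.Helper10.EC.D_B5.thm a1 b1' b2'
theorem b8' : EC237.B8 := Pool.Agent.Helper25.EC.D_B8.thm a1 (Pool.Agent.Helper8.EC.D_A3.thm a1)
  b1' b4' b5'

theorem d13_of_log3 (hL : G_LOG3) : EC237.D13 :=
  d13_of b8' n4' n12' (PkDFUB.thm b8' (PkDPN.thm n1' n4')) (PkDSUM.thm n4' n7' n8')
    (PkDW.thm n4' n7' n8' PkDTEL.thm) (PkDK1.thm n4' n8' (PkDW.thm n4' n7' n8' PkDTEL.thm))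
    (PkDK2.thm n6' n8' hL PkSGI.thm)

/-- (D.13) -/
theorem d13 : EC237.D13 := d13_of_log3 Pool.Agent.Helper80.EC_D.LOG3.log3

end EC237.PD
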