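import Pool.Agent.Helper80.EC_D.Goals

/-! # MP_ecc237_nt, Part D: assembly of (D.13) -/

set_option autoImplicit false

open MeasureTheory Filter Topology Set

namespace EC237.PD

theorem X_zero (h4 : N4) {y : ℝ} (hy : 0 < y) {r m : ℤ} (h : (m - r) % 3 ≠ 0) : X y r m = 0 := by
  obtain ⟨-, -, -, -, -, -, -, -, -, -, -, h5⟩ := h4 y hy r m 1
  exact (h5 h 1).2.2

theorem inner1 (h4 : N4) (hS : G_DSUM) (hW : G_DW) {y : ℝ} (hy : 0 < y) (r : ℤ) :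
    ∑' p : ℤ × ℤ, X y 1 p.1 * (V y r p.2 - V y (1 + r) (p.1 + p.2)) =
      (∑' m : ℤ, X y 1 m) * Wd y r (1 + r) 1 := by
  have h := (hS y hy r).1
  rw [h.tsum_prod, ← tsum_mul_right]
  refine tsum_congr fun a => ?_
  by_cases ha : (a - 1) % 3 = 0
  · have hw := (hW y hy r (1 + r) a 1 (by omega) (by omega)).2
    show ∑' c : ℤ, X y 1 a * (V y r c - V y (1 + r) (a + c)) = _
    rw [tsum_mul_left]
    show X y 1 a * Wd y r (1 + r) a = _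
    rw [hw]
  · simp [X_zero h4 hy ha]

theorem inner2 (h4 : N4) (hS : G_DSUM) (hW : G_DW) {y : ℝ} (hy : 0 < y) (r : ℤ) :
    ∑' p : ℤ × ℤ, X y r p.2 * (V y 1 p.1 - V y (1 + r) (p.1 + p.2)) =
      (∑' m : ℤ, X y r m) * Wd y 1 (1 + r) r := by
  have h := (hS y hy r).2
  have h' := (Equiv.prodComm ℤ ℤ).summable_iff.mpr h
  rw [← (Equiv.prodComm ℤ ℤ).tsum_eq]
  have h2 : Summable (fun p : ℤ × ℤ => X y r p.1 * (V y 1 p.2 - V y (1 + r) (p.2 + p.1))) := h'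
  show ∑' p : ℤ × ℤ, X y r p.1 * (V y 1 p.2 - V y (1 + r) (p.2 + p.1)) = _
  rw [h2.tsum_prod, ← tsum_mul_right]
  refine tsum_congr fun a => ?_
  by_cases ha : (a - r) % 3 = 0
  · have hw := (hW y hy 1 (1 + r) a r (by omega) (by omega)).2
    show ∑' c : ℤ, X y r a * (V y 1 c - V y (1 + r) (c + a)) = _
    rw [tsum_mul_left]
    have : ∑' b : ℤ, (V y 1 b - V y (1 + r) (b + a)) = Wd y 1 (1 + r) a := by
      unfold Wd
      exact tsum_congr fun b => by rw [add_comm b a]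
    rw [this, hw]
  · simp [X_zero h4 hy ha]

/-- (D.13) -/
theorem d13_of (h8 : B8) (h4 : N4) (h12 : N12) (hF : G_DFUB) (hS : G_DSUM) (hW : G_DW)
    (h1 : G_DK1) (h2 : G_DK2) : D13 := by
  intro y hy
  have hyC : (y:ℂ) ≠ 0 := by exact_mod_cast hy.ne'
  have e1 := (h8 y hy 1 (Or.inl rfl)).2.2
  have e3 := (h8 y hy 3 (Or.inr rfl)).2.2
  rw [← (hF y hy 1 (Or.inl rfl)).tsum_eq] at e1
  rw [← (hF y hy 3 (Or.inr rfl)).tsum_eq] at e3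
  have hX1 : ∑' m : ℤ, X y 1 m = ((y * D1 y : ℝ) : ℂ) := (h12 y hy).2.1
  have hX3 : ∑' m : ℤ, X y 3 m = 0 := (h12 y hy).2.2.2.2 1
  have s1 : ∑' p, F13 y 1 p = 2 * (((y * D1 y : ℝ) : ℂ) * Wd y 1 2 1) := by
    have := (hS y hy 1).1.tsum_add (hS y hy 1).2
    unfold F13
    rw [this, inner1 h4 hS hW hy, inner2 h4 hS hW hy, hX1]
    norm_num
    ring
  have s3 : ∑' p, F13 y 3 p = ((y * D1 y : ℝ) : ℂ) * Wd y 3 4 1 := by
    have := (hS y hy 3).1.tsum_add (hS y hy 3).2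
    unfold F13
    rw [this, inner1 h4 hS hW hy, inner2 h4 hS hW hy, hX1, hX3]
    norm_num
  rw [s1] at e1
  rw [s3] at e3
  have hK : Wd y 1 2 1 - Wd y 3 4 1 = ((-(sg y) : ℝ) : ℂ) := (h1 y hy).unique (h2 y hy)
  have hP := (e1.const_mul (1 / 2 : ℂ)).sub e3
  have hval : 1 / 2 * ((y:ℂ)⁻¹ * (2 * (((y * D1 y : ℝ) : ℂ) * Wd y 1 2 1))) -
      (y:ℂ)⁻¹ * (((y * D1 y : ℝ) : ℂ) * Wd y 3 4 1) = ((-(sg y * D1 y) : ℝ) : ℂ) := by
    have : 1 / 2 * ((y:ℂ)⁻¹ * (2 * (((y * D1 y : ℝ) : ℂ) * Wd y 1 2 1))) -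
      (y:ℂ)⁻¹ * (((y * D1 y : ℝ) : ℂ) * Wd y 3 4 1) =
      (y:ℂ)⁻¹ * ((y * D1 y : ℝ) : ℂ) * (Wd y 1 2 1 - Wd y 3 4 1) := by ring
    rw [this, hK]
    push_cast
    field_simp
  rw [hval] at hP
  exact hP.comp_ofReal

end EC237.PD
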