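import Pool.Agent.Helper23.EC.DGoalsN

/-!
# MP_ecc237_nt, Part D: the derivative (D.13) of `𝒫`
-/

set_option autoImplicit false

open MeasureTheory Filter Topology Set

namespace EC237.PD

/-- `v(m)` in the class `r` -/
noncomputable def V (y : ℝ) (r m : ℤ) : ℂ := hS y r m 0 0

/-- `X(m)` in the class `r`: the n-sum of `[x¹]χ`, shift 1 -/
noncomputable def X (y : ℝ) (r m : ℤ) : ℂ := xS y r m 1 1

/-- the sum over `(n_a,n_b)` of `[x¹]δP` at fixed `p = (m_a,m_b)` -/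
noncomputable def F13 (y : ℝ) (r : ℤ) (p : ℤ × ℤ) : ℂ :=
  X y 1 p.1 * (V y r p.2 - V y (1 + r) (p.1 + p.2)) +
    X y r p.2 * (V y 1 p.1 - V y (1 + r) (p.1 + p.2))

/-- DPN -/
def G_DPN : Prop := ∀ y : ℝ, 0 < y → ∀ r ma mb : ℤ,
  HasSum (fun q : ℤ × ℤ => if InCl 1 (q.1, ma) ∧ InCl r (q.2, mb) then
    PowerSeries.coeff 1 (dP (y:ℂ) ((q.1, ma), 1) ((q.2, mb), -1)) else 0) (F13 y r (ma, mb))

/-- DFUB -/
def G_DFUB : Prop := ∀ y : ℝ, 0 < y → ∀ r : ℤ, (r = 1 ∨ r = 3) →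
  HasSum (F13 y r) (∑' p : (ℤ × ℤ) × (ℤ × ℤ), if InCl 1 p.1 ∧ InCl r p.2 then
    PowerSeries.coeff 1 (dP (y:ℂ) (p.1, 1) (p.2, -1)) else 0)

/-- DSUM -/
def G_DSUM : Prop := ∀ y : ℝ, 0 < y → ∀ r : ℤ,
  Summable (fun p : ℤ × ℤ => X y 1 p.1 * (V y r p.2 - V y (1 + r) (p.1 + p.2))) ∧
  Summable (fun p : ℤ × ℤ => X y r p.2 * (V y 1 p.1 - V y (1 + r) (p.1 + p.2)))

/-- `Σ_m (v_r(m) - v_q(a+m))` -/
noncomputable def Wd (y : ℝ) (r q a : ℤ) : ℂ := ∑' m : ℤ, (V y r m - V y q (a + m))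

/-- DTEL: telescoping over the integers -/
def G_DTEL : Prop := ∀ f : ℤ → ℂ, Tendsto f cofinite (𝓝 0) →
  Summable (fun m => f m - f (m + 3)) → ∑' m, (f m - f (m + 3)) = 0

/-- DW -/
def G_DW : Prop := ∀ y : ℝ, 0 < y → ∀ r q a b : ℤ, (a - (q - r)) % 3 = 0 →
  (b - (q - r)) % 3 = 0 → Summable (fun m : ℤ => V y r m - V y q (a + m)) ∧
    Wd y r q a = Wd y r q b

/-- DK1 -/
def G_DK1 : Prop := ∀ y : ℝ, 0 < y →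
  HasSum (fun j : ℤ => V y 1 (1 + 3 * j) - V y 3 (3 * j)) (Wd y 1 2 1 - Wd y 3 4 1)

/-- LOG3 -/
def G_LOG3 : Prop := HasSum (fun i : ℕ => 1 / (3 * (i:ℝ) + 1) + 1 / (3 * (i:ℝ) + 2) -
  2 / (3 * (i:ℝ) + 3)) (Real.log 3)

/-- SGI -/
def G_SGI : Prop := ∀ y : ℝ, 0 < y →
  Summable (fun p : ℕ × ℕ => c3 p * sgn2 p * QQ y p / ((p.1:ℝ) + 1)) ∧
  ∫ t in Ioi y, sgp0 t = -(Real.pi * ∑' p : ℕ × ℕ, c3 p * sgn2 p * QQ y p / ((p.1:ℝ) + 1))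

/-- DK2 -/
def G_DK2 : Prop := ∀ y : ℝ, 0 < y →
  HasSum (fun j : ℤ => V y 1 (1 + 3 * j) - V y 3 (3 * j)) ((-(sg y) : ℝ) : ℂ)

end EC237.PD
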